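import Pool.Agent.MP_5f72fe_nt.H3.All

/-! Weak Goldfeld for all holomorphic Hecke eigenforms of level one. -/

namespace Pool.Agent.Results.MP_5f72fe_nt.LevelOne

open Filter Pool.Agent.MP_5f72fe_nt.H3
open scoped MatrixGroups UpperHalfPlane NumberTheorySymbols

/-- the Fourier coefficient `a(n)` in `f(z) = ∑ a(n) exp(2 π i n z)` -/
noncomputable def coeff (f : ℍ → ℂ) (n : ℕ) : ℂ := (UpperHalfPlane.qExpansion 1 f).coeff n

/-- the coefficients of an eigenfunction of every Hecke operator `T_p` in weight `w`, level one -/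
def IsEigen (w : ℕ) (a : ℕ → ℂ) : Prop :=
  ∀ p : ℕ, p.Prime → ∃ l : ℂ, ∀ n : ℕ, 1 ≤ n →
    a (p * n) + p ^ (w - 1) * (if p ∣ n then a (n / p) else 0) = l * a n

/-- the entire continuation of `∑ a(n) χ_D(n) n^(-s)` does not vanish at the centre `s = w / 2`;
for an odd fundamental discriminant `D`, `χ_D(n)` is the Jacobi symbol `(n / |D|)` -/
def CentralNe (w : ℕ) (a : ℕ → ℂ) (D : ℤ) : Prop :=
  ∃ L : ℂ → ℂ, Differentiable ℂ L ∧
    (∀ s : ℂ, (w : ℝ) / 2 + 1 < s.re → LSeriesHasSum (fun n => a n * J(n | D.natAbs)) s (L s)) ∧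
    L (w / 2) ≠ 0

theorem summ (N k : ℕ) (f : CuspForm 𝒮ℒ (2 * k : ℕ)) (s : ℂ) (hs : k + 1 < s.re) :
    LSeriesSummable (fun n => aF f n * J(n | N)) s := by
  have h1 := CuspFormClass.qExpansion_isBigO f
  rw [Subgroup.strictWidthInfty_SL2Z] at h1
  refine LSeriesSummable_of_isBigO_rpow hs (Asymptotics.IsBigO.trans
    (Asymptotics.isBigO_of_le _ fun n => ?_) (h1.congr_right fun n => ?_))
  · rw [norm_mul]
    refine mul_le_of_le_one_right (norm_nonneg _) ?_
    rcases jacobiSym.trichotomy n N with h | h | h <;> simp [h]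
  · congr 1
    push_cast
    ring

theorem crit' {k : ℕ} (f : CuspForm 𝒮ℒ (2 * k : ℕ)) (h0 : f ≠ 0) (hf : IsEigen (2 * k) (coeff f))
    {n : ℕ} (h : n % 12 = 7) (hs : Squarefree n) (h3 : ¬ 3 ∣ (Rp0 n).card) (D : ℤ)
    (hD : D.natAbs = NN k n) : 6 ≤ k ∧ CentralNe (2 * k) (coeff f) D := by
  obtain ⟨A, hi, hA⟩ := allSER.cfLin (2 * k : ℕ)
  have h1 : aF f 1 ≠ 0 := fun h1 => h0 (hi (by
    rw [hA, map_zero]
    funext m
    rcases Nat.eq_zero_or_pos m with rfl | hm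
    · exact (allSER.cf _ f).2.1
    · exact hek_one _ _ hf h1 m hm))
  have e : ∀ m, aF ((aF f 1)⁻¹ • f) m = (aF f 1)⁻¹ * aF f m := fun m => by
    have := congrFun (map_smul A (aF f 1)⁻¹ f) m
    rwa [hA, hA] at this
  have hg : Hecke k (aF ((aF f 1)⁻¹ • f : CuspForm 𝒮ℒ (2 * k : ℕ))) := by
    refine ⟨(e 1).trans (inv_mul_cancel₀ h1), fun m n hm hn => ?_⟩
    have := hek _ (aF f) hf m hm n hn
    simp only [FunLike.coe_smul, e, mul_left_comm _ (aF f 1)⁻¹, ← Finset.mul_sum]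
    field_simp
    linear_combination this
  obtain ⟨L, ⟨hL1, hL2⟩, hL3⟩ := crit allSER allKER allCRIT allEXL _ hg h hs h3
  refine ⟨six_le allSER _ hg.1, fun s => aF f 1 * L s, hL1.const_mul _, fun s hs' => ?_, ?_⟩
  · have hs2 : k + 1 < s.re := by
      push_cast at hs'
      linarith
    have h2 := (summ (NN k n) k ((aF f 1)⁻¹ • f) s hs2).LSeriesHasSum.smul (aF f 1)
    rw [← hL2 s hs2] at h2
    rw [hD]
    refine Eq.mp (congrArg (fun g => LSeriesHasSum g s (aF f 1 * L s)) (funext fun m => ?_)) h2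
    simp only [FunLike.coe_smul, e, Pi.smul_apply, smul_eq_mul]
    rw [← mul_assoc, ← mul_assoc, mul_inv_cancel₀ h1, one_mul]
    rfl
  · rw [show ((2 * k : ℕ) : ℂ) / 2 = k by push_cast; ring]
    exact mul_ne_zero h1 hL3

theorem result : ∀ᶠ x : ℝ in atTop, ∀ (w : ℕ) (f : CuspForm 𝒮ℒ w), f ≠ 0 → IsEigen w (coeff f) →
    x / 2000 ≤ Set.ncard
      {D : ℤ | |(D : ℝ)| < x ∧ D ≠ 1 ∧ D % 4 = 1 ∧ Squarefree D ∧ CentralNe w (coeff f) D} := by
  classical
  have ht : Tendsto (fun x : ℝ => ⌊x / 4⌋₊) atTop atTop :=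
    tendsto_nat_floor_atTop.comp (tendsto_id.atTop_div_const (by norm_num))
  filter_upwards [ht.eventually allCOUNT, eventually_ge_atTop 8] with x hx h8 w f h0 hf
  obtain ⟨k, rfl⟩ : ∃ k, w = 2 * k := by
    rcases Nat.even_or_odd' w with ⟨k, rfl | rfl⟩
    · exact ⟨k, rfl⟩
    · refine absurd (CuspForm.ext fun z => ?_) h0
      exact DFunLike.congr_fun (ModularForm.levelOne_odd_weight_eq_zero
        (k := (2 * k + 1 : ℕ)) ⟨k, by push_cast; ring⟩ (f : ModularForm 𝒮ℒ _)) z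
  have h1 : (⌊x / 4⌋₊ : ℝ) ≤ x / 4 := Nat.floor_le (by linarith)
  have h2 : x / 4 < ⌊x / 4⌋₊ + 1 := Nat.lt_floor_add_one _
  set G := (Finset.range (⌊x / 4⌋₊ + 1)).filter fun n =>
    n % 12 = 7 ∧ Squarefree n ∧ ¬ 3 ∣ (Rp0 n).card
  let D : ℕ → ℤ := fun n => if k % 2 = 0 then 3 * n else -n
  have hD : ∀ n, (D n).natAbs = NN k n := fun n => by
    simp only [D, NN]
    split_ifs <;> omega
  have hi : Function.Injective D := fun n m e => by
    simp only [D] at e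
    split_ifs at e <;> omega
  have h3 : (G.card : ℝ) ≤ Set.ncard {D : ℤ | |(D : ℝ)| < x ∧ D ≠ 1 ∧ D % 4 = 1 ∧ Squarefree D ∧
      CentralNe (2 * k) (coeff f) D} := by
    rw [← Finset.card_image_of_injective G hi, ← Set.ncard_coe_finset]
    refine Nat.cast_le.2 (Set.ncard_le_ncard (fun d hd => ?_) ?_)
    · obtain ⟨n, hn, rfl⟩ := Finset.mem_image.1 (Finset.mem_coe.1 hd)
      obtain ⟨hn1, hn2, hn3, hn4⟩ := Finset.mem_filter.1 hn
      have hn5 : (n : ℝ) ≤ ⌊x / 4⌋₊ := by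
        exact_mod_cast Nat.le_of_lt_succ (Finset.mem_range.1 hn1)
      obtain ⟨hk, hc⟩ := crit' f h0 hf hn2 hn3 hn4 _ (hD n)
      refine ⟨?_, ?_, ?_, ?_, hc⟩
      · have : |D n| ≤ 3 * n := by
          simp only [D]
          split_ifs <;> rw [abs_le] <;> omega
        have : |(D n : ℝ)| ≤ 3 * n := by exact_mod_cast this
        linarith
      · simp only [D]
        split_ifs <;> omega
      · simp only [D]
        split_ifs <;> omega
      · rw [← Int.squarefree_natAbs, hD]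
        exact (adm_NN hk hn2 hn3).2.1
    · refine (Set.finite_Icc (-⌈x⌉) ⌈x⌉).subset fun d hd => ?_
      have := abs_lt.1 (hd.1.trans_le (Int.le_ceil x))
      exact ⟨by exact_mod_cast this.1.le, by exact_mod_cast this.2.le⟩
  linarith

end Pool.Agent.Results.MP_5f72fe_nt.LevelOne
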